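import Pool.Agent.Lib.MP_bb98d0_co.N1

namespace Pool.Agent.Results.MP_bb98d0_co.Judicious

/-- `e(S)`: the number of edges of `G` with both ends in `S`. -/
def inside {n : ℕ} (G : SimpleGraph (Fin n)) [DecidableRel G.Adj] (S : Finset (Fin n)) : ℕ :=
  (G.edgeFinset.filter fun e => ∀ v ∈ e, v ∈ S).card

/-- `g(G)`: the minimum, over all bipartitions `V = S ∪ Sᶜ`, of `max {e(S), e(Sᶜ)}`. -/
def judicious {n : ℕ} (G : SimpleGraph (Fin n)) [DecidableRel G.Adj] : ℕ :=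
  Finset.univ.inf' Finset.univ_nonempty fun S : Finset (Fin n) => max (inside G S) (inside G (S)ᶜ)

/-- For every `k ≥ 3` the set of ratios `g(G) / e(G)`, `G` a finite `k`-regular `K_{k+1}`-free
graph with at least one edge, has a greatest element: it is `2 / 15` for `k = 3`, `17 / 95` for
`k = 5`, `max {k / (4k + 2), (3k - 4)(k + 2) / (12 k (k + 1))}` for even `k` and
`(k - 1) / (4k) - 2 / (3k(k + 1))` for odd `k ≥ 7`. -/
theorem result (k : ℕ) (hk : 3 ≤ k) :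
    IsGreatest {x : ℝ | ∃ (n : ℕ) (G : SimpleGraph (Fin n)) (_ : DecidableRel G.Adj),
        G.IsRegularOfDegree k ∧ G.CliqueFree (k + 1) ∧ G.edgeFinset.Nonempty ∧
        x = (judicious G : ℝ) / (G.edgeFinset.card : ℝ)}
      (if k = 3 then 2 / 15 else if k = 5 then 17 / 95 else if Even k then
        max ((k : ℝ) / (4 * k + 2)) ((3 * k - 4) * (k + 2) / (12 * k * (k + 1)))
      else ((k : ℝ) - 1) / (4 * k) - 2 / (3 * k * (k + 1))) := by
  have h : ∀ (n : ℕ) (G : SimpleGraph (Fin n)) [DecidableRel G.Adj] (S : Finset (Fin n)),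
      2 * ((max (inside G S) (inside G (S)ᶜ) : ℕ) : ℤ) =
        max (Pool.Agent.Lib.MP_bb98d0_co.J.E2 G S) (Pool.Agent.Lib.MP_bb98d0_co.J.E2 G (S)ᶜ) := by
    intro n G _ S
    rw [← Pool.Agent.Lib.MP_bb98d0_co.J.two_eIn, ← Pool.Agent.Lib.MP_bb98d0_co.J.two_eIn]
    unfold inside
    omega
  have J1 : ∀ (n : ℕ) (G : SimpleGraph (Fin n)) [DecidableRel G.Adj] (S : Finset (Fin n)),
      2 * (judicious G : ℤ) ≤
        max (Pool.Agent.Lib.MP_bb98d0_co.J.E2 G S) (Pool.Agent.Lib.MP_bb98d0_co.J.E2 G (S)ᶜ) := by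
    intro n G _ S
    rw [← h]
    have : judicious G ≤ max (inside G S) (inside G (S)ᶜ) :=
      Finset.inf'_le _ (Finset.mem_univ S)
    omega
  have J2 : ∀ (n : ℕ) (G : SimpleGraph (Fin n)) [DecidableRel G.Adj], ∃ S : Finset (Fin n),
      2 * (judicious G : ℤ) =
        max (Pool.Agent.Lib.MP_bb98d0_co.J.E2 G S) (Pool.Agent.Lib.MP_bb98d0_co.J.E2 G (S)ᶜ) := by
    intro n G _
    obtain ⟨S, -, hS⟩ := Finset.exists_mem_eq_inf' Finset.univ_nonempty
      fun S : Finset (Fin n) => max (inside G S) (inside G (S)ᶜ)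
    exact ⟨S, by rw [← h, ← hS]; rfl⟩
  split_ifs with h3 h5 he
  · subst h3
    have := Pool.Agent.Lib.MP_bb98d0_co.J.finalG (a := 2) (b := 5) (D := 18) (by omega) (by omega)
      (by omega) (fun _ _ _ => Pool.Agent.Lib.MP_bb98d0_co.J.upper3) _
      Pool.Agent.Lib.MP_bb98d0_co.J.reg3 Pool.Agent.Lib.MP_bb98d0_co.J.free3
      Pool.Agent.Lib.MP_bb98d0_co.J.Dv3 (by omega) (fun _ G _ => judicious G) J1 J2
    rwa [show ((2 : ℕ) : ℝ) / ((5 : ℕ) * (3 : ℕ)) = 2 / 15 by norm_num] at this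
  · subst h5
    have := Pool.Agent.Lib.MP_bb98d0_co.J.finalG (a := 17) (b := 19) (D := 58) (by omega)
      (by omega) (by omega) (fun _ _ _ => Pool.Agent.Lib.MP_bb98d0_co.J.upper5) _
      Pool.Agent.Lib.MP_bb98d0_co.J.reg5 Pool.Agent.Lib.MP_bb98d0_co.J.free5
      Pool.Agent.Lib.MP_bb98d0_co.J.Dv5 (by omega) (fun _ G _ => judicious G) J1 J2
    rwa [show ((17 : ℕ) : ℝ) / ((19 : ℕ) * (5 : ℕ)) = 17 / 95 by norm_num] at this
  · exact Pool.Agent.Lib.MP_bb98d0_co.J.final he (by omega) (fun _ G _ => judicious G) J1 J2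
  · obtain ⟨t, ht⟩ := Nat.not_even_iff_odd.1 he
    refine Pool.Agent.Lib.MP_bb98d0_co.J.finalO (t := t + 1) (by omega) (by omega) ?_
      (fun _ G _ => judicious G) J1 J2
    by_cases h7 : 7 ≤ t + 1
    · exact Pool.Agent.Lib.MP_bb98d0_co.J.core7 h7
    · exact Pool.Agent.Lib.MP_bb98d0_co.J.coreMid (by unfold Pool.Agent.Lib.MP_bb98d0_co.Mid; omega)

end Pool.Agent.Results.MP_bb98d0_co.Judicious
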