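import Pool.Agent.Lib.MP_bb98d0_co.Final

namespace Pool.Agent.Results.MP_bb98d0_co.MaxCutConstant

/-- `f(G)`: the maximum, over all bipartitions `V = S ∪ Sᶜ`, of the number of edges with one end
in `S` and the other in `Sᶜ`. -/
def maxCut {n : ℕ} (G : SimpleGraph (Fin n)) [DecidableRel G.Adj] : ℕ :=
  Finset.univ.sup fun S : Finset (Fin n) => (G.interedges S (S)ᶜ).card

/-- For every `k ≥ 3` the set of ratios `f(G) / e(G)`, `G` a finite `k`-regular `K_{k+1}`-free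
graph with at least one edge, has least element `(⌊(k+1)²/4⌋ + 2/3) / C(k+1, 2)`. -/
theorem result (k : ℕ) (hk : 3 ≤ k) :
    IsLeast {x : ℝ | ∃ (n : ℕ) (G : SimpleGraph (Fin n)) (_ : DecidableRel G.Adj),
        G.IsRegularOfDegree k ∧ G.CliqueFree (k + 1) ∧ G.edgeFinset.Nonempty ∧
        x = (maxCut G : ℝ) / (G.edgeFinset.card : ℝ)}
      (((⌊((k : ℝ) + 1) ^ 2 / 4⌋₊ : ℝ) + 2 / 3) / (((k + 1).choose 2 : ℕ) : ℝ)) := by
  have h : ⌊((k : ℝ) + 1) ^ 2 / 4⌋₊ = (k + 1) ^ 2 / 4 := by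
    have := Nat.floor_div_eq_div (K := ℝ) ((k + 1) ^ 2) 4
    push_cast at this
    exact this
  rw [h]
  refine ⟨Pool.Agent.Lib.MP_bb98d0_co.upper_real hk, ?_⟩
  rintro x ⟨n, G, inst, h1, h2, h3, rfl⟩
  exact Pool.Agent.Lib.MP_bb98d0_co.lower_real hk h1 h2 h3

end Pool.Agent.Results.MP_bb98d0_co.MaxCutConstant
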